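import Pool.Agent.H487.MI.Stm
import Pool.Graph.R_pool_sql_team_seeded_1acbe0a2.Y766.R14.Mss

/-!
MSSU: the mollified mean square with `ν₀` independent of `R` (project MI of helper487).
-/

set_option autoImplicit false

namespace Pool.Agent.H881.MI

open Finset Filter
open scoped ContDiff
open Pool.Agent.H487.MI
open Pool.Agent.Y766.R10 (WG mw)
open Pool.Agent.Y766.R11
open Pool.Agent.Y766.R14
open Pool.Agent.Y474.R11
open Pool.Agent.Y785.R10 (om om_smooth om_zero om_le om_bound om_sum piece)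

/-- **MSSU** -/
theorem mssu (h0 : Pool.Agent.Y766.R11.S_AFS) (h1 : Pool.Agent.Y766.R11.S_MSR) : S_MSSU := by
  obtain ⟨D, hD, d1, d2⟩ := om_bound
  intro δ hδ
  obtain ⟨κ₁, η₁, k0, k1, k2, k3, h1⟩ := h1 δ hδ
  obtain ⟨c₁, hc₁⟩ : ∃ c₁, c₁ = min (η₁ / 3) (1 / 4) := ⟨_, rfl⟩
  have hc1 : c₁ ≤ η₁ / 3 := by rw [hc₁]; exact min_le_left _ _
  have hc2 : c₁ ≤ 1 / 4 := by rw [hc₁]; exact min_le_right _ _
  have hc0 : 0 < c₁ := by rw [hc₁]; exact lt_min (by linarith) (by norm_num)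
  refine ⟨κ₁, c₁, k0, k1, hc0, hc2, ?_⟩
  intro κ hκ hκ1 T
  have hκ100 : κ ≤ 1 / 100 := hκ1.trans k1
  obtain ⟨T', hT'⟩ : ∃ T', T' = T + 1 := ⟨_, rfl⟩
  obtain ⟨C₁, hC₁, h1⟩ := h1 κ hκ hκ1 T' 1 one_pos
  obtain ⟨C₀, q₀, hC₀, h0⟩ := h0 T' 1 (κ / 3) one_pos (by positivity) (by linarith)
  obtain ⟨A, hA⟩ : ∃ A, A = (nn κ : ℝ) ^ 2 * (C₁ * (C₀ * KK κ D) ^ 2 * 16 * 2) := ⟨_, rfl⟩
  have hA' : 0 ≤ A := by rw [hA]; positivity
  refine ⟨6 * (2 * A + 9), by positivity, fun p hpF hp => ?_⟩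
  obtain ⟨ν₁, h1⟩ := h1 p hp
  refine ⟨max (max ν₁ 1) ⌈q₀⌉₊,
    fun ν m hmν hν hm χ hχ t ht R hR hRc z hz hzR => ?_⟩
  have hν1 : ν₁ ≤ ν := (le_max_left _ _).trans ((le_max_left _ _).trans hν)
  have hν3 : ⌈q₀⌉₊ ≤ ν := (le_max_right _ _).trans hν
  have h1 := h1 ν m hmν hν1 hm χ hχ
  have hν0 : ν ≠ 0 := by omega
  have hp1 : 1 < p := by omega
  have hq : 1 < p ^ ν := Nat.one_lt_pow hν0 hp1
  have hcast : ((p ^ ν : ℕ) : ℝ) = (p : ℝ) ^ ν := by push_cast; rfl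
  have hp0 : (0 : ℝ) < p := by exact_mod_cast (by omega : 0 < p)
  have hqpos : (0 : ℝ) < (p : ℝ) ^ ν := by positivity
  have hlog : Real.log ((p : ℝ) ^ ν) = ν * Real.log p := Real.log_pow _ _
  have hlogp : 1 ≤ Real.log p := by
    rw [Real.le_log_iff_exp_le hp0]
    have : (7 : ℝ) ≤ p := by exact_mod_cast hp
    linarith [Real.exp_one_lt_d9]
  obtain ⟨L, hLdef⟩ : ∃ L, L = (ν : ℝ) * Real.log p := ⟨_, rfl⟩
  have hLν : (ν : ℝ) ≤ L := by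
    rw [hLdef]
    exact le_mul_of_one_le_right (Nat.cast_nonneg _) hlogp
  have hνpos : (0 : ℝ) < ν := by exact_mod_cast Nat.pos_of_ne_zero hν0
  have hLpos : 0 < L := hνpos.trans_le hLν
  have hRcL : R ≤ c₁ * L := by rw [hLdef]; exact hRc
  have hL4 : 4 * R ≤ L := by
    have := mul_le_mul_of_nonneg_right hc2 hLpos.le
    linarith
  have hL3 : 3 * R ≤ η₁ * L := by
    have := mul_le_mul_of_nonneg_right hc1 hLpos.le
    linarith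
  have hqν : q₀ ≤ ((p ^ ν : ℕ) : ℝ) := by
    refine (Nat.ceil_le.1 hν3).trans ?_
    exact_mod_cast (Nat.lt_pow_self hp1).le
  rw [← hLdef]
  have hLc : (L : ℂ) ≠ 0 := by exact_mod_cast hLpos.ne'
  obtain ⟨X, hX⟩ : ∃ X, X = z.re := ⟨_, rfl⟩
  have hX0 : 0 ≤ X := by rw [hX]; exact hz
  have hXR : X ≤ R := by rw [hX]; exact (Complex.re_le_norm z).trans hzR
  have hzi : |z.im| ≤ R := (Complex.abs_im_le_norm z).trans hzR
  obtain ⟨s, hs⟩ : ∃ s : ℂ, s = 1 / 2 + (t : ℂ) * Complex.I + z / (L : ℂ) := ⟨_, rfl⟩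
  obtain ⟨s2, hs2⟩ : ∃ s2 : ℂ, s2 = 1 / 2 + (t : ℂ) * Complex.I + ((R / 2 / L : ℝ) : ℂ) := ⟨_, rfl⟩
  rw [← hs, ← hs2]
  have hsre : s.re = 1 / 2 + X / L := by
    rw [hs, hX]
    simp [Complex.div_ofReal_re]
  have hsim : s.im = t + z.im / L := by
    rw [hs]
    simp [Complex.div_ofReal_im]
  have hs2re : s2.re = 1 / 2 + R / 2 / L := by
    rw [hs2]
    simp
  have hs2im : s2.im = t := by
    rw [hs2]
    simp
  have hXL : X / L ≤ 1 / 4 := by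
    rw [div_le_iff₀ hLpos]
    linarith
  have hXL0 : 0 ≤ X / L := by positivity
  have hRL : R / 2 / L ≤ 1 / 4 := by
    rw [div_le_iff₀ hLpos]
    linarith
  have hRL0 : 0 ≤ R / 2 / L := by positivity
  have hreg : Reg ((p : ℝ) ^ ν) T' 1 s := by
    refine ⟨?_, ?_, ?_⟩
    · rw [hlog, ← hLdef, hsre]
      have : 0 ≤ 1 / L := by positivity
      linarith
    · rw [hsre]; linarith
    · rw [hsim, hT']
      refine (abs_add_le _ _).trans (add_le_add ht ?_)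
      rw [abs_div, abs_of_pos hLpos, div_le_one hLpos]
      linarith
  have hreg2 : Reg ((p : ℝ) ^ ν) T' 1 s2 := by
    refine ⟨?_, ?_, ?_⟩
    · rw [hlog, ← hLdef, hs2re]
      have : 0 ≤ 1 / L := by positivity
      linarith
    · rw [hs2re]; linarith
    · rw [hs2im, hT']; linarith
  have hP : (0 : ℝ) ≤ (p : ℝ) ^ m := by positivity
  have hcv : ∀ y : ℝ, ((p : ℝ) ^ ν) ^ y = Real.exp (L * y) := by
    intro y
    rw [Real.rpow_def_of_pos hqpos, hlog, ← hLdef]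
  obtain ⟨ψ, hψ⟩ : ∃ ψ : DirichletCharacter ℂ (p ^ m) → DirichletCharacter ℂ (p ^ ν), ψ = fun θ =>
    χ * DirichletCharacter.changeLevel (pow_dvd_pow p hmν.le) θ := ⟨_, rfl⟩
  have hψθ : ∀ θ, χ * DirichletCharacter.changeLevel (pow_dvd_pow p hmν.le) θ = ψ θ := fun θ => by
    rw [hψ]
  simp only [hψθ] at h1 ⊢
  obtain ⟨M, hM⟩ : ∃ M : DirichletCharacter ℂ (p ^ m) → ℂ, M = fun θ => MP (ψ θ) κ s2 := ⟨_, rfl⟩
  have hMθ : ∀ θ, MP (ψ θ) κ s2 = M θ := fun θ => by rw [hM]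
  simp only [hMθ]
  have hHM : HM ψ M s2 κ (R / 2) L η₁ C₁ ((p : ℝ) ^ m) := by
    intro B G hG a ha hsup
    have h3 := h1 B G hG a ha hsup s2 hreg2
    simp only [hMθ] at h3
    rw [hcv, hcv, hs2re] at h3
    have e1 : L * (-2 * (1 / 2 + R / 2 / L - 1 / 2) * max a 0) = -(2 * (R / 2) * max a 0) := by
      field_simp
      ring
    have e2 : L * -η₁ = -η₁ * L := by ring
    rw [e1, e2] at h3
    exact h3
  have hcard : (Fintype.card (DirichletCharacter ℂ (p ^ m)) : ℝ) ≤ (p : ℝ) ^ m := by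
    have e1 := DirichletCharacter.card_eq_totient_of_hasEnoughRootsOfUnity ℂ (p ^ m)
    rw [← Nat.card_eq_fintype_card, e1]
    calc ((p ^ m).totient : ℝ) ≤ ((p ^ m : ℕ) : ℝ) := by exact_mod_cast Nat.totient_le _
      _ = _ := by push_cast; rfl
  have herr : ∑ θ, (‖M θ‖ / ((p ^ ν : ℕ) : ℝ)) ^ 2 ≤ 9 * (p : ℝ) ^ m := by
    have e1 : ∀ θ ∈ (univ : Finset (DirichletCharacter ℂ (p ^ m))),
        (‖M θ‖ / ((p ^ ν : ℕ) : ℝ)) ^ 2 ≤ 9 := by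
      intro θ _
      rw [← hMθ]
      refine (errM hq (ψ θ) hκ hκ100 (by rw [hs2re]; linarith)).trans ?_
      have h3 : Real.exp (-1 * Real.log ((p ^ ν : ℕ) : ℝ)) ≤ 1 := by
        apply Real.exp_le_one_iff.2
        rw [hcast, hlog, ← hLdef]
        linarith
      linarith
    refine (sum_le_sum e1).trans ?_
    rw [sum_const, card_univ, nsmul_eq_mul]
    linarith
  obtain ⟨β, hβ⟩ : ∃ β : ℂ, β = ((R / 2 : ℝ) : ℂ) - z := ⟨_, rfl⟩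
  obtain ⟨β', hβ'⟩ : ∃ β' : ℂ, β' = ((R / 2 : ℝ) : ℂ) + (starRingEnd ℂ) z := ⟨_, rfl⟩
  have hβre : β.re = R / 2 - X := by rw [hβ, hX]; simp
  have hβ're : β'.re = R / 2 + X := by rw [hβ', hX]; simp
  have hR0 : 0 ≤ R := by linarith
  have hnR : ‖((R / 2 : ℝ) : ℂ)‖ = R / 2 := by
    rw [Complex.norm_real, Real.norm_eq_abs, abs_of_nonneg (by positivity)]
  have hβn : (1 + ‖β‖) ^ 4 ≤ 16 * (1 + R) ^ 4 := by
    have h3 : ‖β‖ ≤ 1 + 2 * R := by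
      rw [hβ]
      refine (norm_sub_le _ _).trans ?_
      rw [hnR]
      linarith
    calc (1 + ‖β‖) ^ 4 ≤ (2 * (1 + R)) ^ 4 :=
          pow_le_pow_left₀ (by positivity) (by linarith) 4
      _ = _ := by ring
  have hβ'n : (1 + ‖β'‖) ^ 4 ≤ 16 * (1 + R) ^ 4 := by
    have h3 : ‖β'‖ ≤ 1 + 2 * R := by
      rw [hβ']
      refine (norm_add_le _ _).trans ?_
      rw [hnR, RCLike.norm_conj]
      linarith
    calc (1 + ‖β'‖) ^ 4 ≤ (2 * (1 + R)) ^ 4 :=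
          pow_le_pow_left₀ (by positivity) (by linarith) 4
      _ = _ := by ring
  have hlq : Real.log ((p ^ ν : ℕ) : ℝ) = L := by rw [hcast, hlog, ← hLdef]
  have m1 : (s2 - s) * (Real.log ((p ^ ν : ℕ) : ℝ) : ℂ) = β := by
    rw [hlq, hβ, hs, hs2]
    push_cast
    field_simp
    ring
  have m2 : (s2 - (1 - (starRingEnd ℂ) s)) * (Real.log ((p ^ ν : ℕ) : ℝ) : ℂ) = β' := by
    rw [hlq, hβ', hs, hs2]
    have e1 : (starRingEnd ℂ) (1 / 2 + (t : ℂ) * Complex.I + z / (L : ℂ)) =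
        1 / 2 - (t : ℂ) * Complex.I + (starRingEnd ℂ) z / (L : ℂ) := by
      simp only [map_add, map_mul, map_div₀, Complex.conj_ofReal, Complex.conj_I, map_one,
        map_ofNat]
      ring
    rw [e1]
    push_cast
    field_simp
    ring
  obtain ⟨W, hW⟩ : ∃ W, W = (1 + R) ^ 4 * Real.exp (4 * κ * R) := ⟨_, rfl⟩
  have hE24 : Real.exp (2 * κ * R) ≤ Real.exp (4 * κ * R) := by
    apply Real.exp_le_exp.2
    nlinarith [mul_nonneg hκ.le hR0]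
  have hW1 : 1 ≤ W := by
    rw [hW]
    have e1 : 1 ≤ (1 + R) ^ 4 := one_le_pow₀ (by linarith)
    have e2 : 1 ≤ Real.exp (4 * κ * R) := Real.one_le_exp (by positivity)
    nlinarith
  have hsX : (s.re - 1 / 2) * Real.log ((p ^ ν : ℕ) : ℝ) = X := by
    rw [hlq, hsre]
    field_simp
    ring
  -- the bound for one parity
  have hpar : ∀ G1 G2 : ℝ → ℂ, WG C₀ G1 → WG C₀ G2 →
      (∀ v, 1 / 2 + 3 * (κ / 3) ≤ v → G1 v = 0 ∧ G2 v = 0) →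
      ∑ θ, (‖AS (ψ θ) (fun v => Complex.exp (β * v) * G1 v) s2 * M θ‖ ^ 2 +
        Real.exp (-(2 * ((s.re - 1 / 2) * Real.log ((p ^ ν : ℕ) : ℝ)))) *
        ‖AS (ψ θ) (fun v => Complex.exp (β' * v) * G2 v) s2 * M θ‖ ^ 2 +
        (‖M θ‖ / ((p ^ ν : ℕ) : ℝ)) ^ 2) ≤ (2 * A + 9) * W * (p : ℝ) ^ m := by
    intro G1 G2 w1 w2 hv
    have hv1 : ∀ v, 1 / 2 + κ ≤ v → G1 v = 0 := fun v h => (hv v (by linarith)).1
    have hv2 : ∀ v, 1 / 2 + κ ≤ v → G2 v = 0 := fun v h => (hv v (by linarith)).2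
    have g1 := shiftR (β := β) (b := 2 * Real.exp (2 * κ * R)) hHM hκ hC₁.le hP hD d1 d2 w1 hv1
      (fun a ha ha' => by
        rw [hβre]
        exact ey1 hR hX0 hXR hκ hκ100 hL3 ha ha')
    have g2 := shiftR (β := β') (b := Real.exp (2 * X) * (2 * Real.exp (2 * κ * R))) hHM hκ
      hC₁.le hP hD d1 d2 w2 hv2 (fun a ha ha' => by
        rw [hβ're]
        exact ey2 hR hX0 hXR hκ hκ100 hL3 ha ha')
    rw [hsX, sum_add_distrib, sum_add_distrib, ← mul_sum]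
    have g3 : (nn κ : ℝ) ^ 2 * (C₁ * (C₀ * KK κ D) ^ 2 * (1 + ‖β‖) ^ 4 *
        (2 * Real.exp (2 * κ * R)) * (p : ℝ) ^ m) ≤ A * W * (p : ℝ) ^ m := by
      calc _ ≤ (nn κ : ℝ) ^ 2 * (C₁ * (C₀ * KK κ D) ^ 2 * (16 * (1 + R) ^ 4) *
            (2 * Real.exp (4 * κ * R)) * (p : ℝ) ^ m) := by gcongr
        _ = A * W * (p : ℝ) ^ m := by rw [hA, hW]; ring
    have g4 : Real.exp (-(2 * X)) * ∑ θ, ‖AS (ψ θ) (fun v => Complex.exp (β' * v) * G2 v) s2 *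
        M θ‖ ^ 2 ≤ A * W * (p : ℝ) ^ m := by
      have e1 : Real.exp (-(2 * X)) * Real.exp (2 * X) = 1 := by
        rw [← Real.exp_add, neg_add_cancel, Real.exp_zero]
      calc _ ≤ Real.exp (-(2 * X)) * ((nn κ : ℝ) ^ 2 * (C₁ * (C₀ * KK κ D) ^ 2 * (1 + ‖β'‖) ^ 4 *
            (Real.exp (2 * X) * (2 * Real.exp (2 * κ * R))) * (p : ℝ) ^ m)) :=
            mul_le_mul_of_nonneg_left g2 (Real.exp_pos _).le
        _ = (Real.exp (-(2 * X)) * Real.exp (2 * X)) * ((nn κ : ℝ) ^ 2 *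
            (C₁ * (C₀ * KK κ D) ^ 2 * (1 + ‖β'‖) ^ 4 *
            (2 * Real.exp (2 * κ * R)) * (p : ℝ) ^ m)) := by ring
        _ = (nn κ : ℝ) ^ 2 * (C₁ * (C₀ * KK κ D) ^ 2 * (1 + ‖β'‖) ^ 4 *
            (2 * Real.exp (2 * κ * R)) * (p : ℝ) ^ m) := by rw [e1, one_mul]
        _ ≤ (nn κ : ℝ) ^ 2 * (C₁ * (C₀ * KK κ D) ^ 2 * (16 * (1 + R) ^ 4) *
            (2 * Real.exp (4 * κ * R)) * (p : ℝ) ^ m) := by gcongr
        _ = A * W * (p : ℝ) ^ m := by rw [hA, hW]; ring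
    have g5 : 9 * (p : ℝ) ^ m ≤ 9 * W * (p : ℝ) ^ m := by
      have := mul_le_mul_of_nonneg_right hW1 hP
      nlinarith
    have g6 : (2 * A + 9) * W * (p : ℝ) ^ m = A * W * (p : ℝ) ^ m + A * W * (p : ℝ) ^ m +
      9 * W * (p : ℝ) ^ m := by ring
    rw [g6]
    linarith
  have hreg' : Reg ((p ^ ν : ℕ) : ℝ) T' 1 s := by
    rw [hcast]
    exact hreg
  obtain ⟨G1, G2, a1, a2, a3, a4, a5⟩ := h0 (p ^ ν) hqν 0 (by norm_num) s hreg'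
  obtain ⟨G1', G2', b1, b2, b3, b4, b5⟩ := h0 (p ^ ν) hqν 1 le_rfl s hreg'
  have f0 := hpar G1 G2 a1 a2 a3
  have f1 := hpar G1' G2' b1 b2 b3
  obtain ⟨F0, hF0⟩ : ∃ F0 : DirichletCharacter ℂ (p ^ m) → ℝ, F0 = fun θ =>
    (‖AS (ψ θ) (fun v => Complex.exp (β * v) * G1 v) s2 * M θ‖ ^ 2 +
        Real.exp (-(2 * ((s.re - 1 / 2) * Real.log ((p ^ ν : ℕ) : ℝ)))) *
        ‖AS (ψ θ) (fun v => Complex.exp (β' * v) * G2 v) s2 * M θ‖ ^ 2 +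
        (‖M θ‖ / ((p ^ ν : ℕ) : ℝ)) ^ 2) := ⟨_, rfl⟩
  obtain ⟨F1, hF1⟩ : ∃ F1 : DirichletCharacter ℂ (p ^ m) → ℝ, F1 = fun θ =>
    (‖AS (ψ θ) (fun v => Complex.exp (β * v) * G1' v) s2 * M θ‖ ^ 2 +
        Real.exp (-(2 * ((s.re - 1 / 2) * Real.log ((p ^ ν : ℕ) : ℝ)))) *
        ‖AS (ψ θ) (fun v => Complex.exp (β' * v) * G2' v) s2 * M θ‖ ^ 2 +
        (‖M θ‖ / ((p ^ ν : ℕ) : ℝ)) ^ 2) := ⟨_, rfl⟩
  have f0' : ∑ θ, F0 θ ≤ (2 * A + 9) * W * (p : ℝ) ^ m := by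
    rw [hF0]
    exact f0
  have f1' : ∑ θ, F1 θ ≤ (2 * A + 9) * W * (p : ℝ) ^ m := by
    rw [hF1]
    exact f1
  have hpt : ∀ θ, ‖(ψ θ).LFunction s * M θ‖ ^ 2 ≤ 3 * (F0 θ + F1 θ) := by
    intro θ
    have hprim : (ψ θ).IsPrimitive := by
      rw [← hψθ]
      exact Pool.Agent.Y766.R3.prim_mul hpF.out hmν hχ θ
    have n0 : 0 ≤ F0 θ := by
      rw [hF0]
      positivity
    have n1 : 0 ≤ F1 θ := by
      rw [hF1]
      positivity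
    rcases (ψ θ).even_or_odd with hev | hod
    · obtain ⟨w, hw, hL⟩ := a5 (ψ θ) hprim (by rw [pow_zero]; exact hev)
      have := pw2 hq (ψ θ) G1 G2 s s2 w ((ψ θ).LFunction s) (M θ) β β' hw m1 m2 hL
      have e : F0 θ = (‖AS (ψ θ) (fun v => Complex.exp (β * v) * G1 v) s2 * M θ‖ ^ 2 +
        Real.exp (-(2 * ((s.re - 1 / 2) * Real.log ((p ^ ν : ℕ) : ℝ)))) *
        ‖AS (ψ θ) (fun v => Complex.exp (β' * v) * G2 v) s2 * M θ‖ ^ 2 +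
        (‖M θ‖ / ((p ^ ν : ℕ) : ℝ)) ^ 2) := by
        rw [hF0]
      rw [← e] at this
      linarith
    · obtain ⟨w, hw, hL⟩ := b5 (ψ θ) hprim (by rw [pow_one]; exact hod)
      have := pw2 hq (ψ θ) G1' G2' s s2 w ((ψ θ).LFunction s) (M θ) β β' hw m1 m2 hL
      have e : F1 θ = (‖AS (ψ θ) (fun v => Complex.exp (β * v) * G1' v) s2 * M θ‖ ^ 2 +
        Real.exp (-(2 * ((s.re - 1 / 2) * Real.log ((p ^ ν : ℕ) : ℝ)))) *
        ‖AS (ψ θ) (fun v => Complex.exp (β' * v) * G2' v) s2 * M θ‖ ^ 2 +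
        (‖M θ‖ / ((p ^ ν : ℕ) : ℝ)) ^ 2) := by
        rw [hF1]
      rw [← e] at this
      linarith
  have hfin : ∑ θ, ‖(ψ θ).LFunction s * M θ‖ ^ 2 ≤ 6 * (2 * A + 9) * W * (p : ℝ) ^ m := by
    refine (sum_le_sum fun θ _ => hpt θ).trans ?_
    rw [← mul_sum, sum_add_distrib]
    linarith
  refine hfin.trans (le_of_eq ?_)
  rw [hW]
  ring

end Pool.Agent.H881.MI
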